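import Pool.Agent.KTB.StmtsKC

/-!
# Squad KTB, row KAB
-/

set_option autoImplicit false

namespace Pool.Agent.KTB.H38

open Finset
open scoped Classical

private theorem kab_nul_le {ι T : Type} [Fintype ι] (D : Dat ι T) (S : Finset ι) :
    D.nul S ≤ Fintype.card ι := by
  unfold Dat.nul
  refine (Submodule.finrank_le _).trans ?_
  rw [Module.finrank_fintype_fun_eq_card]

private theorem kab_N_of {ι T : Type} [Fintype ι] (D : Dat ι T) (S : Finset ι) {ρ : ι → ℚ}
    (hρ : ρ ∈ D.R S) {a : ι} (ha : ρ a ≠ 0) : a ∈ D.N S := by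
  unfold Dat.N
  refine mem_filter.2 ⟨?_, ρ, hρ, ha⟩
  by_contra h
  exact ha (hρ.2 a h)

private theorem kab_N_sub {ι T : Type} [Fintype ι] (D : Dat ι T) (S : Finset ι) :
    D.N S ⊆ S := filter_subset _ _

private theorem kab_nul_N {ι T : Type} [Fintype ι] (D : Dat ι T) (S : Finset ι) :
    D.nul (D.N S) = D.nul S := by
  have h : D.R (D.N S) = D.R S := by
    ext ρ
    constructor
    · intro hρ
      exact ⟨hρ.1, fun a ha => hρ.2 a fun h => ha (kab_N_sub D S h)⟩
    · intro hρ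
      refine ⟨hρ.1, fun a ha => ?_⟩
      by_contra h
      exact ha (kab_N_of D S hρ h)
  unfold Dat.nul
  rw [h]

private theorem kab_N_ne {ι T : Type} [Fintype ι] (D : Dat ι T) (S : Finset ι)
    (h : 1 ≤ D.nul S) : (D.N S).Nonempty := by
  have h1 : D.R S ≠ ⊥ := by
    intro h2
    unfold Dat.nul at h
    rw [h2, finrank_bot] at h
    omega
  obtain ⟨ρ, hρ, hρ0⟩ := Submodule.exists_mem_ne_zero_of_ne_bot h1
  obtain ⟨a, ha⟩ := Function.ne_iff.1 hρ0
  exact ⟨a, kab_N_of D S hρ ha⟩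

/-- The conclusion from an irreducible perfect cover without a touch. -/
private theorem kab_end {ι T : Type} [Fintype ι] (D : Dat ι T) (S : Finset ι) (K : Finset T)
    (μ : ℕ) (hμ : 1 ≤ μ) (h : D.IPC S K μ) (h0 : ∀ k ∈ K, ∀ r, r ∉ S → D.x k r = 0) :
    K.Nonempty ∧ (∀ a, ∑ k ∈ K, D.x k a ≤ 1) ∧ (∀ k ∈ K, ∃ a, D.x k a = 1) ∧
      (D.EK univ K).card < 2 * K.card + D.nul (D.EK univ K) := by
  have hsum := h.sum
  have hmem : ∀ k ∈ K, ∀ a, D.x k a ≠ 0 → a ∈ D.N S := by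
    intro k hk a ha
    by_contra hN
    by_cases haS : a ∈ S
    · exact ha (h.out a haS hN k hk)
    · exact ha (h0 k hk a haS)
  have huniq : ∀ a ∈ D.N S, ∀ k ∈ K, ∀ k' ∈ K, D.x k a ≠ 0 → D.x k' a ≠ 0 → k = k' := by
    intro a ha k hk k' hk' h1 h2
    obtain ⟨j, -, -, hj⟩ := h.cov a ha
    have e1 : k = j := by
      by_contra hne
      exact h1 (hj k hk hne)
    have e2 : k' = j := by
      by_contra hne
      exact h2 (hj k' hk' hne)
    rw [e1, e2]
  obtain ⟨a₀, ha₀⟩ := kab_N_ne D S (by omega)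
  refine ⟨?_, ?_, ?_, ?_⟩
  · obtain ⟨k, hk, -⟩ := h.cov a₀ ha₀
    exact ⟨k, hk⟩
  · intro a
    by_cases haN : a ∈ D.N S
    · obtain ⟨k, hk, h1, h2⟩ := h.cov a haN
      rw [Finset.sum_eq_single k h2 (fun hk' => absurd hk hk'), h1]
    · have h1 : ∀ k ∈ K, D.x k a = 0 := by
        intro k hk
        by_contra h2
        exact haN (hmem k hk a h2)
      rw [Finset.sum_eq_zero h1]
      exact Nat.zero_le _
  · intro k hk
    have h1 : 0 < (D.E S k).card := lt_of_lt_of_le (by norm_num) (h.two k hk)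
    obtain ⟨a, ha⟩ := Finset.card_pos.1 h1
    have h2 : D.x k a ≠ 0 := (mem_filter.1 ha).2
    obtain ⟨j, hj, h3, -⟩ := h.cov a (hmem k hk a h2)
    have h4 : k = j := huniq a (hmem k hk a h2) k hk j hj h2 (by rw [h3]; exact one_ne_zero)
    exact ⟨a, by rw [h4]; exact h3⟩
  · have hEK : D.EK univ K = D.N S := by
      ext a
      unfold Dat.EK
      rw [mem_filter]
      constructor
      · rintro ⟨-, k, hk, h1⟩
        exact hmem k hk a h1
      · intro ha
        obtain ⟨k, hk, h1, -⟩ := h.cov a ha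
        exact ⟨mem_univ _, k, hk, by rw [h1]; exact one_ne_zero⟩
    have hbi : D.N S = K.biUnion (fun k => D.E S k) := by
      ext a
      rw [mem_biUnion]
      constructor
      · intro ha
        obtain ⟨k, hk, h1, -⟩ := h.cov a ha
        exact ⟨k, hk, mem_filter.2 ⟨kab_N_sub D S ha, by rw [h1]; exact one_ne_zero⟩⟩
      · rintro ⟨k, hk, ha⟩
        exact hmem k hk a (mem_filter.1 ha).2
    have hcard : (D.N S).card = ∑ k ∈ K, (D.E S k).card := by
      rw [hbi]
      refine Finset.card_biUnion ?_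
      intro k hk k' hk' hne
      refine Finset.disjoint_left.2 ?_
      intro a ha ha'
      have h1 := (mem_filter.1 ha).2
      have h2 := (mem_filter.1 ha').2
      exact hne (huniq a (hmem k hk a h1) k hk k' hk' h1 h2)
    have hcard2 : ∑ k ∈ K, (D.E S k).card = D.exc S K + 2 * K.card := by
      unfold Dat.exc
      rw [mul_comm, ← smul_eq_mul, ← Finset.sum_const, ← Finset.sum_add_distrib]
      refine Finset.sum_congr rfl fun k hk => ?_
      have := h.two k hk
      omega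
    rw [hEK, kab_nul_N, hcard, hcard2]
    omega

/-- Row KAB. -/
theorem kab (hRAY : RayStmt) (hTRM : TrmStmt) (hIPM : IpmStmt) (hCHN : ChnStmt)
    (hINS : InsStmt) (hNTH : NthStmt) : KabStmt := by
  intro ι T _ D
  by_cases hz : ∃ S, D.LL S ∧ D.nul S = 0
  · exact Or.inl hz
  right
  have hz' : ∀ S, D.LL S → 1 ≤ D.nul S := by
    intro S hS
    by_contra h
    exact hz ⟨S, hS, by omega⟩
  by_cases hp : ∃ Y i, D.Priv univ Y i
  · obtain ⟨Y, i, -, h1, h2⟩ := hp
    refine ⟨{i}, Finset.singleton_nonempty i, ?_, ?_, ?_⟩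
    · intro a
      rw [Finset.sum_singleton]
      by_cases ha : a = Y
      · rw [ha, h1]
      · rw [h2 a (mem_univ _) ha]
        exact Nat.zero_le _
    · intro k hk
      rw [Finset.mem_singleton.1 hk]
      exact ⟨Y, h1⟩
    · have h3 : D.EK univ {i} ⊆ {Y} := by
        intro a ha
        obtain ⟨-, k, hk, h4⟩ := mem_filter.1 ha
        rw [Finset.mem_singleton.1 hk] at h4
        rw [Finset.mem_singleton]
        by_contra h5
        exact h4 (h2 a (mem_univ _) h5)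
      have h4 := Finset.card_le_card h3
      rw [Finset.card_singleton] at h4 ⊢
      omega
  -- `univ` is leafless
  have hLL : D.LL univ := by
    refine ⟨⟨D.l0, ?_, fun a ha => absurd (mem_univ a) ha⟩, fun a i hi => ?_⟩
    · rw [sub_self]
      exact D.rel.zero_mem
    · exact absurd ⟨a, i, hi⟩ hp
  have hreachLL : ∀ A, D.Reach univ A → D.LL A := by
    intro A hA
    induction hA with
    | refl => exact hLL
    | tail _ h1 _ =>
      obtain ⟨R, ⟨p, f, hv⟩, rfl⟩ := h1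
      exact hv.2.2
  have hnul : ∀ A R, D.Valid A R → D.nul (A \ R) + 1 = D.nul A := by
    intro A R hv
    obtain ⟨p, f, hv⟩ := hv
    exact (hRAY ι T D A R p f hv.2.1 hv.1).2.2.2.2.1
  -- the smallest nullity
  have hex : ∃ n, ∃ A, D.Reach univ A ∧ D.nul A = n :=
    ⟨_, univ, Relation.ReflTransGen.refl, rfl⟩
  obtain ⟨A, hA, hAμ⟩ := Nat.find_spec hex
  set μ := Nat.find hex with hμdef
  have hμmin : ∀ B, D.Reach univ B → μ ≤ D.nul B := fun B hB =>
    Nat.find_min' hex ⟨B, hB, rfl⟩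
  have hμ1 : 1 ≤ μ := by
    rw [← hAμ]
    exact hz' A (hreachLL A hA)
  have hAv : ∀ R, ¬ D.Valid A R := by
    intro R hv
    have h1 := hnul A R hv
    have h2 := hμmin (A \ R) (Relation.ReflTransGen.tail hA ⟨R, hv, rfl⟩)
    omega
  obtain ⟨M, hM⟩ := hTRM ι T D A (hreachLL A hA) hAv
  have hipc := hIPM ι T D A M hM
  rw [hAμ] at hipc
  -- a cover with the largest nullity
  let Q : ℕ → Prop := fun n => ∃ S₀ K, D.Reach univ S₀ ∧ D.IPC S₀ K μ ∧ D.nul S₀ = n
  have hQb : ∀ n, Q n → n ≤ Fintype.card ι := by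
    rintro n ⟨S₀, K, -, -, rfl⟩
    exact kab_nul_le D S₀
  have hQ0 : Q (D.nul A) := ⟨A, M, hA, hipc, rfl⟩
  have hmax : ∃ n, Q n ∧ ∀ m, Q m → m ≤ n :=
    ⟨Nat.findGreatest Q (Fintype.card ι), Nat.findGreatest_spec (hQb _ hQ0) hQ0,
      fun m hm => Nat.le_findGreatest (hQb m hm) hm⟩
  obtain ⟨n, ⟨S₀, K, hS₀, hK, rfl⟩, hmax⟩ := hmax
  refine ⟨K, kab_end D S₀ K μ hμ1 hK ?_⟩
  by_contra hcon
  push Not at hcon
  obtain ⟨k, hk, r, hr, hkr⟩ := hcon
  obtain ⟨S', R, hS', hLL', hv, rfl, htch⟩ :=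
    hCHN ι T D univ S₀ K hLL hS₀ ⟨k, hk, r, mem_univ _, hr, hkr⟩
  have hNH : D.NH S' R K μ :=
    ⟨hLL', hμ1, fun B hB => hμmin B (hS'.trans hB), hv, hK, htch⟩
  obtain ⟨r', hr', k', hk', h1, h2, M', hM'⟩ := hNTH ι T D S' R K μ hNH
  have h3 := hINS ι T D S' R K M' μ r' k' hNH hr' hk' h1 h2 hM'
  have h4 := hmax (D.nul S') ⟨S', K ∪ M', hS', h3, rfl⟩
  have h5 := hnul S' R hv
  omega

end Pool.Agent.KTB.H38
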