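import Pool.Agent.KTB.StmtsKD

/-!
# Squad KTB, row TWO
-/

set_option autoImplicit false

namespace Pool.Agent.KTB.H38

open Finset
open scoped Classical

/-- Row TWO. -/
theorem two (hIDN : IdnStmt) : TwoStmt := by
  intro ι T _ D S q hq
  obtain ⟨y, hy, hqy⟩ := hq
  by_contra hcon
  have hmem : y ∈ (D.N S).filter fun y => D.x q y ≠ 0 := mem_filter.2 ⟨hy, hqy⟩
  have hcard : ((D.N S).filter fun y => D.x q y ≠ 0).card ≤ 1 := by omega
  have huniq : ∀ a ∈ D.N S, D.x q a ≠ 0 → a = y := fun a ha hqa =>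
    Finset.card_le_one.1 hcard a (mem_filter.2 ⟨ha, hqa⟩) y hmem
  obtain ⟨hyS, ρ, hρ, hρy⟩ := mem_filter.1 hy
  have h1 := (hIDN ι T D S).2.1 ρ hρ q
  rw [Finset.sum_eq_single y] at h1
  · rcases mul_eq_zero.1 h1 with h2 | h2
    · exact hqy (by exact_mod_cast h2)
    · exact hρy h2
  · intro a haS hay
    by_cases hqa : D.x q a = 0
    · rw [hqa, Nat.cast_zero, zero_mul]
    · have h2 : ρ a = 0 := by
        by_contra h3
        exact hay (huniq a (mem_filter.2 ⟨haS, ρ, hρ, h3⟩) hqa)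
      rw [h2, mul_zero]
  · intro h
    exact absurd hyS h

end Pool.Agent.KTB.H38
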